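import Pool.Agent.MP_b13154_gt.Mg.H25_Dia

namespace Pool.Agent.MP_b13154_gt.Old.LogGap

open Pool.Agent.MP_b13154_gt.H25

theorem result : (∀ n, (primeKnots n).Finite) ∧
    ∃ C : ℝ, ∀ n : ℕ, 2 ≤ n → ∃ m : ℕ, n < m ∧ (m : ℝ) ≤ n + C * Real.log n ∧
      (∀ j < m, (primeKnots j).ncard < (primeKnots m).ncard) ∧
      ∑ j ∈ Finset.range (n + 1), (primeKnots j).ncard < (primeKnots m).ncard :=
  ⟨pk_fin, log_gap⟩

end Pool.Agent.MP_b13154_gt.Old.LogGap
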